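import Pool.Agent.H66.GL.Aff
import Pool.Agent.H66.GL.StmA

/-!
# Affine torus extensions of limits of gradient-like diffeomorphisms, arbitrary linear part

Definitions: `AsymPO`, `GradLike` in `Pool/Agent/H66/GL/Def.lean`; `Coord`, `LimitOf`, `Good` in
`Pool/Agent/H66/GL/Stm.lean`; `Tamed`, `AffineExtension`, `IsAffine`, `Limits` in
`Pool/Agent/H66/GL/StmA.lean`; the torus `Tor k` with its charts in `Pool/Agent/H66/TM/Def.lean`,
`lin` in `Pool/Agent/H66/TM/Lin.lean`, `QuasiUnipotent` in `Pool/Agent/H66/TM/Alg.lean`; `omegaLim`,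
`FiniteAttractors` in `Pool/Agent/H66/L/S8/H728R2/FA/Defs.lean`, the topology of `Diff^r` in
`Pool/Agent/H66/L/S8/H718R2/G0.lean`.
-/

set_option autoImplicit false

open scoped Manifold ContDiff Topology
open MeasureTheory Function Set

universe u v w

namespace Pool.Agent.Results.MP_3a2b62_an.AffineExtensions

open Pool.Agent.H718R2.G Pool.Agent.H66.GL Pool.Agent.H66.GL.Stm Pool.Agent.H66.TM
open Pool.Agent.W5h32.TX

theorem tamed_of {N : Type u} [TopologicalSpace N] {G : N → N} (h : TameAttr G) : Tamed G := by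
  obtain ⟨⟨m, M, h1, h2, h3, h4⟩, h5⟩ := h
  exact ⟨⟨m, M, fun i => ⟨h1 i, h2 i, h3 i⟩, h4⟩, h5⟩

/-- Let `1 ≤ r ≤ ∞`, `A ∈ GL(k, ℤ)` and `F ∈ Diff^r(N)`, `N` a closed manifold. Suppose that `N` is
diffeomorphic to `B × 𝕋^k`, `B` a closed manifold, and `F` is an affine torus extension
`(b, y) ↦ (f b, A y + c(b))` of `f ∈ Diff^r(B)`, where every neighbourhood of `f` in `Diff^r(B)`
contains gradient-like diffeomorphisms; or that `N` is diffeomorphic to `𝕋^k` and `F` is an affine
map `y ↦ A y + c`. Then every neighbourhood of `F` in `Diff^r(N)` contains diffeomorphisms `G` with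
finitely many closed invariant transitive sets containing all `ω`-limit sets, and with finitely many
attractors covering `N` up to a null set, for every measure on `N`. If all eigenvalues of `A` are
roots of unity, then `G` can be taken gradient-like (so that this case can be iterated). -/
theorem result (n d k : ℕ) (N : Type u) [TopologicalSpace N] [T2Space N] [CompactSpace N]
    [ChartedSpace (V n) N] [IsManifold (𝓡 n) ∞ N]
    (B : Type v) [TopologicalSpace B] [T2Space B] [CompactSpace B] [ChartedSpace (V d) B]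
    [IsManifold (𝓡 d) ∞ B] (r : ℕ∞) (hr : 1 ≤ r) (F : DiffM n N r)
    (A : Matrix (Fin k) (Fin k) ℤ) (hA : IsUnit A.det) :
    (∀ (Θ : Coord n d k N B (Tor k)) (f : DiffM d B r), AffineExtension Θ A F f →
      LimitOf GradLike f → Limits A F) ∧
    (∀ θ : Diffeomorph (𝓡 k) (𝓡 n) (Tor k) N ∞, IsAffine θ A F → Limits A F) := by
  refine ⟨?_, ?_⟩
  · rintro Θ f ⟨c, hc⟩ hf
    refine ⟨?_, fun hq => ?_⟩
    · intro U hU hFU
      obtain ⟨G, hGU, hG⟩ := near_affine k n d N B Θ r hr F f A c hA hc hf U hU hFU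
      exact ⟨G, hGU, tamed_of hG⟩
    · intro U hU hFU
      obtain ⟨G, hGU, hG⟩ := near_quasi k n d N B Θ r hr F f A c hA hq hc hf U hU hFU
      exact ⟨G, hGU, hG, gradLike_concl G hG⟩
  · rintro θ ⟨c, hc⟩
    have : CompactSpace (V 0) := inferInstance
    have hc' : ∀ b y, F (ptCoord θ (b, y)) =
        ptCoord θ ((Diffeomorph.refl (𝓡 0) (V 0) r : DiffM 0 (V 0) r) b,
          lin A y + (fun _ => c) b) := fun b y => hc y
    refine ⟨?_, fun hq => ?_⟩
    · intro U hU hFU
      obtain ⟨G, hGU, hG⟩ := near_affine k n 0 N (V 0) (ptCoord θ) r hr F _ A (fun _ => c) hA hc'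
        (near_point r) U hU hFU
      exact ⟨G, hGU, tamed_of hG⟩
    · intro U hU hFU
      obtain ⟨G, hGU, hG⟩ := near_quasi k n 0 N (V 0) (ptCoord θ) r hr F _ A (fun _ => c) hA hq hc'
        (near_point r) U hU hFU
      exact ⟨G, hGU, hG, gradLike_concl G hG⟩

end Pool.Agent.Results.MP_3a2b62_an.AffineExtensions
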