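import Pool.Agent.H66.GL.Cir
import Pool.Agent.H66.GL.Stm

/-!
# Skew products with circle fibres over limits of gradient-like diffeomorphisms

Definitions: `AsymPO`, `GradLike` in `Pool/Agent/H66/GL/Def.lean`; `Coord`, `LimitOf`, `Good` in
`Pool/Agent/H66/GL/Stm.lean`; the torus `Tor k` with its charts in `Pool/Agent/H66/TM/Def.lean`,
`cir`, `IsCircleLift` in `Pool/Agent/H66/TM/CirDef.lean`; `omegaLim`, `FiniteAttractors` in
`Pool/Agent/H66/L/S8/H728R2/FA/Defs.lean`, the topology of `Diff^r` in
`Pool/Agent/H66/L/S8/H718R2/G0.lean`.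

Library: the results on the transversality of the periodic points and on Lyapunov functions of circle
diffeomorphisms of helper182 (`Q182/OT1`, `Q182/CC1`, `Q182/CC2`).
-/

set_option autoImplicit false

open scoped Manifold ContDiff Topology
open MeasureTheory Function Set

universe u v w

namespace Pool.Agent.Results.MP_3a2b62_an.CircleExtensions

open Pool.Agent.H718R2.G Pool.Agent.H66.GL Pool.Agent.H66.GL.Stm Pool.Agent.H66.TM

/-- In the coordinates `Θ : B × ℝ/ℤ → N` the map `F` is a skew product over `f` whose fibre maps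
preserve the orientation of the circle: they have the continuous, strictly increasing lifts `φ b`
with `φ b (t + 1) = φ b t + 1`. -/
def CircleExtension {n d : ℕ} {N : Type u} [TopologicalSpace N] [ChartedSpace (V n) N]
    {B : Type v} [TopologicalSpace B] [ChartedSpace (V d) B]
    (Θ : Coord n d 1 N B (Tor 1)) (F : N → N) (f : B → B) : Prop :=
  ∃ φ : B → ℝ → ℝ, (∀ b, IsCircleLift (φ b)) ∧ ∀ b t, F (Θ (b, cir t)) = Θ (f b, cir (φ b t))

/-- Let `1 ≤ r ≤ ∞`, let `N`, `B` be closed manifolds and `Θ : B × ℝ/ℤ → N` a diffeomorphism. Let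
`F ∈ Diff^r(N)` be any skew product over `f ∈ Diff^r(B)` which preserves the orientation of the
circles. If every neighbourhood of `f` in `Diff^r(B)` contains gradient-like diffeomorphisms, then
every neighbourhood of `F` in `Diff^r(N)` contains gradient-like diffeomorphisms (so this can be
iterated); these have finitely many attractors covering `N` up to a null set, for every measure on
`N`, and all their `ω`-limit sets are periodic orbits. -/
theorem result (n d : ℕ) (N : Type u) [TopologicalSpace N] [T2Space N] [CompactSpace N]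
    [ChartedSpace (V n) N] [IsManifold (𝓡 n) ∞ N]
    (B : Type v) [TopologicalSpace B] [T2Space B] [CompactSpace B] [ChartedSpace (V d) B]
    [IsManifold (𝓡 d) ∞ B] (Θ : Coord n d 1 N B (Tor 1))
    (r : ℕ∞) (hr : 1 ≤ r) (F : DiffM n N r) (f : DiffM d B r)
    (hF : CircleExtension Θ F f) (hf : LimitOf GradLike f) : LimitOf Good F := by
  obtain ⟨φ, hφ, h⟩ := hF
  intro U hU hFU
  obtain ⟨G, hGU, hG⟩ := near_circle Θ hr hφ h hf U hU hFU
  exact ⟨G, hGU, hG, gradLike_concl G hG⟩

end Pool.Agent.Results.MP_3a2b62_an.CircleExtensions
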