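import Pool.Agent.H66.GL.Fin

/-!
# Isometric extensions of limits of gradient-like diffeomorphisms

Definitions: `AsymPO`, `GradLike` in `Pool/Agent/H66/GL/Def.lean`; `Symmetry`, `CompactAbelian`,
`SymmetricMonotone` in `Pool/Agent/H66/L/T64922ed1/X84/Pm/Defs.lean`, `TorusAction`, `Crit` in
`Pool/Agent/H66/L/T64922ed1/X84/Tor/Defs.lean`, `omegaLim`, `FiniteAttractors` in
`Pool/Agent/H66/L/S8/H728R2/FA/Defs.lean`, the topology of `Diff^r` in
`Pool/Agent/H66/L/S8/H718R2/G0.lean`.
-/

set_option autoImplicit false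

open scoped Manifold ContDiff Topology
open MeasureTheory Function Set

universe u v w

namespace Pool.Agent.Results.MP_3a2b62_an.IsometricExtensions

open Pool.Agent.H718R2.G Pool.Agent.X84.Pm Pool.Agent.H66.GL
open Pool.Agent.H728R2.FA (omegaLim FiniteAttractors)

/-- Diffeomorphisms from `B × K` to `N`. -/
abbrev Coord (n d l : ℕ) (N : Type u) [TopologicalSpace N] [ChartedSpace (V n) N]
    (B : Type v) [TopologicalSpace B] [ChartedSpace (V d) B]
    (K : Type w) [TopologicalSpace K] [ChartedSpace (V l) K] :=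
  Diffeomorph ((𝓡 d).prod (𝓡 l)) (𝓡 n) (B × K) N ∞

/-- In the coordinates `Θ : B × K → N` the map `F` is a skew product `(b, y) ↦ (f b, R_b y)`, and
all compositions of the fibre maps `R_b` are elements of compact abelian groups of `C^∞`
diffeomorphisms of `K`. -/
def IsometricExtension {n d l : ℕ} {N : Type u} [TopologicalSpace N] [ChartedSpace (V n) N]
    {B : Type v} [TopologicalSpace B] [ChartedSpace (V d) B]
    {K : Type w} [TopologicalSpace K] [ChartedSpace (V l) K]
    (Θ : Coord n d l N B K) (F : N → N) (f : B → B) : Prop :=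
  ∃ (R : B → K → K) (𝒢 : Set (K → K)), (∀ b y, F (Θ (b, y)) = Θ (f b, R b y)) ∧
    (∀ b, R b ∈ 𝒢) ∧ (∀ S ∈ 𝒢, ∀ S' ∈ 𝒢, S ∘ S' ∈ 𝒢) ∧ ∀ S ∈ 𝒢, CompactAbelian (V l) S

/-- Every `C^r` neighbourhood of `F` contains a diffeomorphism with the property `P`. -/
def LimitOf {n : ℕ} {N : Type u} [TopologicalSpace N] [ChartedSpace (V n) N] {r : ℕ∞}
    (P : (N → N) → Prop) (F : DiffM n N r) : Prop :=
  ∀ U : Set (DiffM n N r), IsOpen[strongTop n N r] U → F ∈ U → ∃ G ∈ U, P G

/-- `G` is gradient-like: it has finitely many periodic points, and all limit points of asymptotic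
pseudo-orbits of `G` are periodic; moreover every `ω`-limit set of `G` is a periodic orbit, and `G`
has finitely many attractors covering `N` up to a null set, for every measure on `N`. -/
def Good {N : Type u} [TopologicalSpace N] (G : N → N) : Prop :=
  GradLike G ∧ (∀ x, ∃ p ∈ periodicPts G, omegaLim G x = range fun k : ℕ => G^[k] p) ∧
    ∀ (_ : MeasurableSpace N) (μ : Measure N), FiniteAttractors μ G

/-- Let `1 ≤ r ≤ ∞`. For closed manifolds `N`, `B`, `K` and a diffeomorphism `Θ : B × K → N`:

* if `F ∈ Diff^r(N)` is an isometric extension of `f ∈ Diff^r(B)`, and every neighbourhood of `f` in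
  `Diff^r(B)` contains gradient-like diffeomorphisms, then every neighbourhood of `F` in `Diff^r(N)`
  contains gradient-like diffeomorphisms (so this can be iterated); these have finitely many
  attractors covering `N` up to a null set, for every measure on `N`, and all their `ω`-limit sets
  are periodic orbits;
* the hypothesis on `f` holds if `f` is a `C^r` limit of symmetric monotone maps
  (`SymmetricMonotone`; for instance of elements of compact abelian groups of `C^∞`
  diffeomorphisms). -/
theorem result (n d l : ℕ) (N : Type u) [TopologicalSpace N] [T2Space N] [CompactSpace N]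
    [ChartedSpace (V n) N] [IsManifold (𝓡 n) ∞ N]
    (B : Type v) [TopologicalSpace B] [T2Space B] [CompactSpace B] [ChartedSpace (V d) B]
    [IsManifold (𝓡 d) ∞ B]
    (K : Type w) [TopologicalSpace K] [T2Space K] [CompactSpace K] [ChartedSpace (V l) K]
    [IsManifold (𝓡 l) ∞ K] (Θ : Coord n d l N B K)
    (r : ℕ∞) (hr : 1 ≤ r) (F : DiffM n N r) (f : DiffM d B r) :
    (IsometricExtension Θ F f → LimitOf GradLike f → LimitOf Good F) ∧
      (LimitOf (SymmetricMonotone (V d)) f → LimitOf Good f) := by
  refine ⟨fun hF hf => ?_, fun hf => ?_⟩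
  · obtain ⟨R, 𝒢, hR, h3, h1, h2⟩ := hF
    intro U hU hFU
    obtain ⟨hcov, hfib⟩ := ext_coord Θ F f R hR
    obtain ⟨G, hGU, hG⟩ := near_gradLike Θ hr hcov h1 (fun b => by rw [hfib]; exact h3 b)
      (fun S hS => pb_compactAbelian (h2 S hS)) hf U hU hFU
    exact ⟨G, hGU, hG, gradLike_concl G hG⟩
  · intro U hU hfU
    obtain ⟨g, hgU, hg⟩ := Pool.Agent.H66.GL.Near.trans hf (fun G hG => near_gradLike_sym hr hG)
      U hU hfU
    exact ⟨g, hgU, hg, gradLike_concl g hg⟩

end Pool.Agent.Results.MP_3a2b62_an.IsometricExtensions
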