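import Pool.Agent.H66.GL.Mon
import Pool.Agent.H66.GL.Stm

/-!
# Skew products with monotone fibre maps over limits of gradient-like diffeomorphisms

Definitions: `AsymPO`, `GradLike` in `Pool/Agent/H66/GL/Def.lean`; `Coord`, `LimitOf`, `Good` in
`Pool/Agent/H66/GL/Stm.lean`; `omegaLim`, `FiniteAttractors` in
`Pool/Agent/H66/L/S8/H728R2/FA/Defs.lean`, the topology of `Diff^r` in
`Pool/Agent/H66/L/S8/H718R2/G0.lean`.
-/

set_option autoImplicit false

open scoped Manifold ContDiff Topology
open MeasureTheory Function Set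

universe u v w

namespace Pool.Agent.Results.MP_3a2b62_an.MonotoneExtensions

open Pool.Agent.H718R2.G Pool.Agent.H66.GL Pool.Agent.H66.GL.Stm

/-- `h` is a `C^∞` function with finitely many critical points. -/
def FinCrit (l : ℕ) {K : Type w} [TopologicalSpace K] [ChartedSpace (V l) K] (h : K → ℝ) : Prop :=
  ContMDiff (𝓡 l) 𝓘(ℝ, ℝ) ∞ h ∧ {z | mfderiv (𝓡 l) 𝓘(ℝ, ℝ) h z = 0}.Finite

/-- In the coordinates `Θ : B × K → N` the map `F` is a skew product `(b, y) ↦ (f b, R_b y)`, and
`h (R_b y) ≥ h y`. -/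
def MonotoneExtension {n d l : ℕ} {N : Type u} [TopologicalSpace N] [ChartedSpace (V n) N]
    {B : Type v} [TopologicalSpace B] [ChartedSpace (V d) B]
    {K : Type w} [TopologicalSpace K] [ChartedSpace (V l) K]
    (Θ : Coord n d l N B K) (F : N → N) (f : B → B) (h : K → ℝ) : Prop :=
  ∃ R : B → K → K, (∀ b y, F (Θ (b, y)) = Θ (f b, R b y)) ∧ ∀ b y, h y ≤ h (R b y)

/-- Let `1 ≤ r ≤ ∞`, let `N`, `B`, `K` be closed manifolds and `Θ : B × K → N` a diffeomorphism, and
let `h` be a `C^∞` function on `K` with finitely many critical points. Let `F ∈ Diff^r(N)` be a skew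
product `(b, y) ↦ (f b, R_b y)` over `f ∈ Diff^r(B)` whose fibre maps satisfy `h ∘ R_b ≥ h` (for
instance, all `R_b` preserve `h`). If every neighbourhood of `f` in `Diff^r(B)` contains
gradient-like diffeomorphisms, then every neighbourhood of `F` in `Diff^r(N)` contains gradient-like
diffeomorphisms (so this can be iterated); these have finitely many attractors covering `N` up to a
null set, for every measure on `N`, and all their `ω`-limit sets are periodic orbits. -/
theorem result (n d l : ℕ) (N : Type u) [TopologicalSpace N] [T2Space N] [CompactSpace N]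
    [ChartedSpace (V n) N] [IsManifold (𝓡 n) ∞ N]
    (B : Type v) [TopologicalSpace B] [T2Space B] [CompactSpace B] [ChartedSpace (V d) B]
    [IsManifold (𝓡 d) ∞ B]
    (K : Type w) [TopologicalSpace K] [T2Space K] [CompactSpace K] [ChartedSpace (V l) K]
    [IsManifold (𝓡 l) ∞ K] (Θ : Coord n d l N B K)
    (r : ℕ∞) (hr : 1 ≤ r) (F : DiffM n N r) (f : DiffM d B r) (h : K → ℝ) (hh : FinCrit l h)
    (hF : MonotoneExtension Θ F f h) (hf : LimitOf GradLike f) : LimitOf Good F := by
  obtain ⟨R, hR, hm⟩ := hF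
  intro U hU hFU
  obtain ⟨hcov, hfib⟩ := ext_coord Θ F f R hR
  obtain ⟨G, hGU, hG⟩ := near_gradLike Θ hr hcov
    (𝒢 := {S : K → K | Continuous S ∧ Injective S ∧ ∀ x, h x ≤ h (S x)})
    (fun S hS S' hS' => ⟨hS.1.comp hS'.1, hS.2.1.comp hS'.2.1,
      fun x => (hS'.2.2 x).trans (hS.2.2 _)⟩)
    (fun b => by
      rw [hfib]
      obtain ⟨h1, h2⟩ := fibre_cont Θ F f R hR b
      exact ⟨h1, h2, hm b⟩)
    (fun S hS => pb_monotone hh.1 hh.2 hS.1 hS.2.1 hS.2.2) hf U hU hFU
  exact ⟨G, hGU, hG, gradLike_concl G hG⟩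

end Pool.Agent.Results.MP_3a2b62_an.MonotoneExtensions
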